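import Mathlib

set_option autoImplicit false

/-!
# Vertices of operator convex corners and facets of their anti-blockers
-/

namespace Pool.Agent.Results.MP_59e64e_co.VertexFacet

open Matrix Filter Topology
open scoped ComplexOrder

/-- The real vector space of Hermitian `n × n` complex matrices. -/
noncomputable abbrev Herm (n : ℕ) := selfAdjoint.submodule ℝ (Matrix (Fin n) (Fin n) ℂ)

/-- The pairing `Tr (X Y)`. -/
noncomputable def pair {n : ℕ} (X Y : Herm n) : ℝ :=
  (trace ((X : Matrix (Fin n) (Fin n) ℂ) * (Y : Matrix (Fin n) (Fin n) ℂ))).re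

/-- Positive semidefinite elements. -/
def Psd {n : ℕ} (X : Herm n) : Prop := (X : Matrix (Fin n) (Fin n) ℂ).PosSemidef

/-- A convex corner: a nonempty closed convex hereditary set of positive semidefinite matrices. -/
structure IsConvexCorner {n : ℕ} (C : Set (Herm n)) : Prop where
  nonempty : C.Nonempty
  closed : IsClosed C
  convex : Convex ℝ C
  psd : ∀ A ∈ C, Psd A
  hereditary : ∀ A ∈ C, ∀ B : Herm n, Psd B → Psd (A - B) → B ∈ C

/-- The anti-blocker of `C`. -/
def antiBlocker {n : ℕ} (C : Set (Herm n)) : Set (Herm n) :=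
  {Z | Psd Z ∧ ∀ X ∈ C, pair X Z ≤ 1}

/-- A vertex of `C`: a boundary point `X` of `C` such that the intersection of the supporting
hyperplanes `{Z | pair Z Y = α}` of `C` at `X` is `{X}`. -/
def IsVertex {n : ℕ} (C : Set (Herm n)) (X : Herm n) : Prop :=
  X ∈ C ∧ X ∈ frontier C ∧
    ∀ Z : Herm n, (∀ (Y : Herm n) (α : ℝ), (∀ A ∈ C, pair A Y ≤ α) → pair X Y = α →
      pair Z Y = α) → Z = X

/-- A facet of `D`: a nonempty set of the form `{A ∈ D | pair A Y = α}` for a supporting hyperplane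
(`Y ≠ 0` and `pair A Y ≤ α` on `D`), contained in the boundary of `D`, whose affine hull has
dimension `n ^ 2 - 1`. -/
def IsFacet {n : ℕ} (D F : Set (Herm n)) : Prop :=
  ∃ (Y : Herm n) (α : ℝ), Y ≠ 0 ∧ (∀ A ∈ D, pair A Y ≤ α) ∧ F = {A ∈ D | pair A Y = α} ∧
    F.Nonempty ∧ F ⊆ frontier D ∧ Module.finrank ℝ (affineSpan ℝ F).direction = n ^ 2 - 1

variable {n : ℕ}

lemma herm_coe (X : Herm n) : (X : Matrix (Fin n) (Fin n) ℂ)ᴴ = X := X.2

lemma pair_add_left (X Y Z : Herm n) : pair (X + Y) Z = pair X Z + pair Y Z := by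
  simp [pair, add_mul, trace_add]

lemma pair_smul_left (c : ℝ) (X Y : Herm n) : pair (c • X) Y = c * pair X Y := by
  simp [pair, trace_smul]

lemma pair_comm (X Y : Herm n) : pair X Y = pair Y X := by
  rw [pair, pair, trace_mul_comm]

lemma pair_sub_left (X Y Z : Herm n) : pair (X - Y) Z = pair X Z - pair Y Z := by
  simp [pair, sub_mul, trace_sub]

lemma pair_add_right (X Y Z : Herm n) : pair X (Y + Z) = pair X Y + pair X Z := by
  rw [pair_comm, pair_add_left, pair_comm Y, pair_comm Z]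

lemma pair_smul_right (c : ℝ) (X Y : Herm n) : pair X (c • Y) = c * pair X Y := by
  rw [pair_comm, pair_smul_left, pair_comm Y]

/-- The quadratic form. -/
noncomputable def q (X : Herm n) (x : Fin n → ℂ) : ℝ :=
  (star x ⬝ᵥ ((X : Matrix (Fin n) (Fin n) ℂ) *ᵥ x)).re

/-- symmetry of the sesquilinear form -/
lemma form_symm (X : Herm n) (x y : Fin n → ℂ) :
    star y ⬝ᵥ ((X : Matrix (Fin n) (Fin n) ℂ) *ᵥ x) =
      star (star x ⬝ᵥ ((X : Matrix (Fin n) (Fin n) ℂ) *ᵥ y)) := by
  rw [star_dotProduct, star_mulVec, herm_coe, dotProduct_mulVec]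

lemma q_complex (X : Herm n) (x : Fin n → ℂ) :
    star x ⬝ᵥ ((X : Matrix (Fin n) (Fin n) ℂ) *ᵥ x) = (q X x : ℂ) := by
  have h := form_symm X x x
  apply Complex.ext
  · simp [q]
  · have := congrArg Complex.im h
    simp only [Complex.star_def, Complex.conj_im] at this
    simp only [Complex.ofReal_im]
    linarith

lemma psd_iff (X : Herm n) : Psd X ↔ ∀ x, 0 ≤ q X x := by
  unfold Psd
  rw [posSemidef_iff_dotProduct_mulVec]
  constructor
  · intro h x
    have := h.2 x
    rw [q_complex] at this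
    exact_mod_cast this
  · intro h
    refine ⟨X.2, fun x => ?_⟩
    rw [q_complex]
    exact_mod_cast h x

/-- the rank one matrix `g g*` -/
noncomputable def outer (g : Fin n → ℂ) : Herm n :=
  ⟨vecMulVec g (star g), by
    have : (vecMulVec g (star g)).PosSemidef := posSemidef_vecMulVec_self_star g
    exact this.1⟩

lemma outer_mulVec (g x : Fin n → ℂ) :
    ((outer g : Herm n) : Matrix (Fin n) (Fin n) ℂ) *ᵥ x = (star g ⬝ᵥ x) • g := by
  ext i
  simp only [outer, mulVec, dotProduct, vecMulVec_apply, Pi.smul_apply, smul_eq_mul,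
    Finset.sum_mul]
  exact Finset.sum_congr rfl fun j _ => by ring

lemma q_outer (g x : Fin n → ℂ) : q (outer g) x = ‖star g ⬝ᵥ x‖ ^ 2 := by
  unfold q
  rw [outer_mulVec, dotProduct_smul, smul_eq_mul]
  have : star x ⬝ᵥ g = star (star g ⬝ᵥ x) := by
    rw [star_dotProduct]
  rw [this, Complex.star_def, Complex.mul_conj]
  rw [Complex.ofReal_re, Complex.normSq_eq_norm_sq]

lemma psd_outer (g : Fin n → ℂ) : Psd (outer g) := posSemidef_vecMulVec_self_star g

lemma q_add (X Y : Herm n) (x : Fin n → ℂ) : q (X + Y) x = q X x + q Y x := by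
  simp [q, add_mulVec]

lemma q_sub (X Y : Herm n) (x : Fin n → ℂ) : q (X - Y) x = q X x - q Y x := by
  simp [q, sub_mulVec]

lemma q_smul (c : ℝ) (X : Herm n) (x : Fin n → ℂ) : q (c • X) x = c * q X x := by
  simp [q, smul_mulVec]

lemma psd_add {X Y : Herm n} (hX : Psd X) (hY : Psd Y) : Psd (X + Y) := by
  rw [psd_iff] at *
  intro x
  rw [q_add]
  exact add_nonneg (hX x) (hY x)

lemma psd_smul {X : Herm n} (hX : Psd X) {c : ℝ} (hc : 0 ≤ c) : Psd (c • X) := by
  rw [psd_iff] at *
  intro x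
  rw [q_smul]
  exact mul_nonneg hc (hX x)

lemma psd_zero : Psd (0 : Herm n) := by
  rw [psd_iff]
  intro x
  simp [q]

lemma pair_outer (g : Fin n → ℂ) (Y : Herm n) : pair (outer g) Y = q Y g := by
  unfold pair q outer
  simp only
  rw [vecMulVec_mul, trace_vecMulVec, dotProduct_comm, dotProduct_mulVec]

/-- Rank one reduction. -/
lemma psd_reduce {A : Herm n} (hA : Psd A) (f : Fin n → ℂ) (hf : 0 < q A f) :
    Psd (A - (q A f)⁻¹ • outer ((A : Matrix (Fin n) (Fin n) ℂ) *ᵥ f)) := by
  rw [psd_iff] at *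
  intro x
  rw [q_sub, q_smul, q_outer]
  set a := q A f with ha
  -- z = f* A x
  set z : ℂ := star ((A : Matrix (Fin n) (Fin n) ℂ) *ᵥ f) ⬝ᵥ x with hz
  have hz' : z = star f ⬝ᵥ ((A : Matrix (Fin n) (Fin n) ℂ) *ᵥ x) := by
    rw [hz, star_mulVec, herm_coe, dotProduct_mulVec]
  have hzs : star x ⬝ᵥ ((A : Matrix (Fin n) (Fin n) ℂ) *ᵥ f) = star z := by
    rw [form_symm, hz']
  set τ : ℂ := (a : ℂ)⁻¹ * z with hτ
  have h1 := hA (x - τ • f)
  have h2 : star (x - τ • f) ⬝ᵥ ((A : Matrix (Fin n) (Fin n) ℂ) *ᵥ (x - τ • f)) =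
      (q A x : ℂ) - τ * star z - star τ * z + τ * star τ * (a : ℂ) := by
    rw [mulVec_sub, mulVec_smul, star_sub, star_smul, sub_dotProduct, dotProduct_sub,
      dotProduct_sub, smul_dotProduct, smul_dotProduct, dotProduct_smul, dotProduct_smul,
      ← hz', hzs, q_complex, q_complex]
    simp only [smul_eq_mul]
    ring
  have h3 : (star (x - τ • f) ⬝ᵥ ((A : Matrix (Fin n) (Fin n) ℂ) *ᵥ (x - τ • f))).re =
      q A x - a⁻¹ * ‖z‖ ^ 2 := by
    rw [h2, hτ]
    have h4 : (q A x : ℂ) - (a : ℂ)⁻¹ * z * star z - star ((a : ℂ)⁻¹ * z) * z +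
        (a : ℂ)⁻¹ * z * star ((a : ℂ)⁻¹ * z) * (a : ℂ) = ((q A x - a⁻¹ * ‖z‖ ^ 2 : ℝ) : ℂ) := by
      have h5 : z * star z = ((‖z‖ ^ 2 : ℝ) : ℂ) := by
        rw [Complex.star_def, Complex.mul_conj, Complex.normSq_eq_norm_sq]
      have h6 : star ((a : ℂ)⁻¹ * z) = (a : ℂ)⁻¹ * star z := by
        rw [star_mul', Complex.star_def, map_inv₀, Complex.conj_ofReal]
      have h7 : (a : ℂ) ≠ 0 := by exact_mod_cast hf.ne'
      rw [h6]
      push_cast at h5 ⊢
      rw [← h5]
      field_simp
      ring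
    rw [h4, Complex.ofReal_re]
  unfold q at h1
  rw [h3] at h1
  exact h1

/-- the cone generated by `C - X` -/
def SC (C : Set (Herm n)) (X : Herm n) : Set (Herm n) :=
  {M | ∃ t : ℝ, 0 ≤ t ∧ ∃ A ∈ C, M = t • (A - X)}

section cone

variable {C : Set (Herm n)} {X : Herm n}

lemma SC_smul {M : Herm n} (hM : M ∈ SC C X) {c : ℝ} (hc : 0 ≤ c) : c • M ∈ SC C X := by
  obtain ⟨t, ht, A, hA, rfl⟩ := hM
  exact ⟨c * t, mul_nonneg hc ht, A, hA, by rw [smul_smul]⟩

lemma SC_add (hC : Convex ℝ C) {M N : Herm n} (hM : M ∈ SC C X) (hN : N ∈ SC C X) :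
    M + N ∈ SC C X := by
  obtain ⟨t, ht, A, hA, rfl⟩ := hM
  obtain ⟨s, hs, B, hB, rfl⟩ := hN
  rcases (add_nonneg ht hs).eq_or_lt with h | h
  · have h1 : t = 0 := by linarith
    have h2 : s = 0 := by linarith
    exact ⟨0, le_rfl, A, hA, by rw [h1, h2]; simp⟩
  · refine ⟨t + s, h.le, (t / (t + s)) • A + (s / (t + s)) • B,
      hC hA hB (by positivity) (by positivity) (by field_simp), ?_⟩
    have e1 : (t + s) * (t / (t + s)) = t := mul_div_cancel₀ _ h.ne'
    have e2 : (t + s) * (s / (t + s)) = s := mul_div_cancel₀ _ h.ne'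
    rw [smul_sub (t + s), smul_add (t + s), smul_smul, smul_smul, e1, e2]
    module

lemma T_smul {M : Herm n} (hM : M ∈ closure (SC C X)) {c : ℝ} (hc : 0 ≤ c) :
    c • M ∈ closure (SC C X) :=
  map_mem_closure (continuous_const_smul c) hM fun _ ha => SC_smul ha hc

lemma T_add (hC : Convex ℝ C) {M N : Herm n} (hM : M ∈ closure (SC C X))
    (hN : N ∈ closure (SC C X)) : M + N ∈ closure (SC C X) :=
  map_mem_closure₂ continuous_add hM hN fun _ ha _ hb => SC_add hC ha hb

lemma continuous_pair_left (Y : Herm n) : Continuous fun M : Herm n => pair M Y := by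
  unfold pair
  refine Complex.continuous_re.comp ?_
  refine Continuous.matrix_trace ?_
  exact continuous_subtype_val.matrix_mul continuous_const

lemma T_pair {Y : Herm n} (hY : ∀ A ∈ C, pair A Y ≤ pair X Y) {M : Herm n}
    (hM : M ∈ closure (SC C X)) : pair M Y ≤ 0 := by
  have hcl : IsClosed {M : Herm n | pair M Y ≤ 0} :=
    isClosed_le (continuous_pair_left Y) continuous_const
  refine closure_minimal ?_ hcl hM
  rintro _ ⟨t, ht, A, hA, rfl⟩
  simp only [Set.mem_ofPred_eq]
  rw [pair_smul_left, pair_sub_left]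
  exact mul_nonpos_of_nonneg_of_nonpos ht (by linarith [hY A hA])

lemma pointed (hX : IsVertex C X) {M : Herm n} (hM : M ∈ closure (SC C X))
    (hM' : -M ∈ closure (SC C X)) : M = 0 := by
  have h := hX.2.2 (X + M) (by
    intro Y α hY hα
    have h1 : ∀ A ∈ C, pair A Y ≤ pair X Y := by rw [hα]; exact hY
    have h2 := T_pair h1 hM
    have h3 := T_pair h1 hM'
    have h4 : pair (-M) Y = - pair M Y := by
      simp [pair]
    rw [pair_add_left]
    linarith)
  simpa using h

lemma mulVec_zero_of_q {A : Herm n} (hA : Psd A) {x : Fin n → ℂ} (h : q A x = 0) :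
    (A : Matrix (Fin n) (Fin n) ℂ) *ᵥ x = 0 := by
  have h1 := hA.dotProduct_mulVec_zero_iff x
  rw [← h1, q_complex, h]
  simp

lemma outer_zero : (outer (0 : Fin n → ℂ)) = 0 := by
  apply Subtype.ext
  simp [outer]

/-- `-(X f)(X f)*` is in the cone. -/
lemma neg_outer_mem (hC : IsConvexCorner C) (hX : X ∈ C) (f : Fin n → ℂ) :
    - outer ((X : Matrix (Fin n) (Fin n) ℂ) *ᵥ f) ∈ SC C X := by
  have hpsd := hC.psd X hX
  have h0 : 0 ≤ q X f := (psd_iff X).1 hpsd f
  rcases h0.eq_or_lt with h | h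
  · rw [mulVec_zero_of_q hpsd h.symm, outer_zero]
    exact ⟨0, le_rfl, X, hX, by simp⟩
  · refine ⟨q X f, h.le, X - (q X f)⁻¹ • outer ((X : Matrix (Fin n) (Fin n) ℂ) *ᵥ f), ?_, ?_⟩
    · apply hC.hereditary X hX _ (psd_reduce hpsd f h)
      rw [sub_sub_cancel]
      exact psd_smul (psd_outer _) (inv_nonneg.2 h.le)
    · rw [sub_sub_cancel_left, smul_neg, smul_smul, mul_inv_cancel₀ h.ne', one_smul]

lemma outer_smul (c : ℝ) (g : Fin n → ℂ) : outer ((c : ℂ) • g) = (c ^ 2) • outer g := by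
  apply Subtype.ext
  ext i j
  simp only [outer, vecMulVec_apply, Pi.smul_apply, Pi.star_apply, smul_eq_mul, star_mul',
    Submodule.coe_smul, Matrix.smul_apply, Complex.real_smul]
  rw [Complex.star_def, Complex.conj_ofReal]
  push_cast
  ring

/-- vector `g(M, s)` -/
noncomputable def gg (X : Herm n) (e p : Fin n → ℂ) (z : Herm n × ℝ) : Fin n → ℂ :=
  (X : Matrix (Fin n) (Fin n) ℂ) *ᵥ p + (z.1 : Matrix (Fin n) (Fin n) ℂ) *ᵥ e +
    (z.2 : ℂ) • ((z.1 : Matrix (Fin n) (Fin n) ℂ) *ᵥ p)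

/-- number `c(M, s)` -/
noncomputable def cc (X : Herm n) (e p : Fin n → ℂ) (z : Herm n × ℝ) : ℝ :=
  (star (e + (z.2 : ℂ) • p) ⬝ᵥ gg X e p z).re

lemma continuous_gg (X : Herm n) (e p : Fin n → ℂ) : Continuous (gg X e p) := by
  unfold gg
  have h1 : Continuous fun z : Herm n × ℝ => (z.1 : Matrix (Fin n) (Fin n) ℂ) :=
    continuous_subtype_val.comp continuous_fst
  have h2 : Continuous fun z : Herm n × ℝ => (z.2 : ℂ) :=
    Complex.continuous_ofReal.comp continuous_snd
  exact (continuous_const.add (h1.matrix_mulVec continuous_const)).add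
    (h2.smul (h1.matrix_mulVec continuous_const))

lemma continuous_cc (X : Herm n) (e p : Fin n → ℂ) : Continuous (cc X e p) := by
  unfold cc
  have h2 : Continuous fun z : Herm n × ℝ => (z.2 : ℂ) :=
    Complex.continuous_ofReal.comp continuous_snd
  exact Complex.continuous_re.comp
    (((continuous_const.add (h2.smul continuous_const)).star).dotProduct (continuous_gg X e p))

lemma continuous_outer : Continuous (outer : (Fin n → ℂ) → Herm n) := by
  unfold outer
  exact Continuous.subtype_mk (continuous_id.matrix_vecMulVec continuous_id.star) _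

/-- The key reduction: subtracting a rank one matrix. -/
lemma reduceT (hC : IsConvexCorner C) (hX : X ∈ C) {M : Herm n} (hM : M ∈ closure (SC C X))
    (e p : Fin n → ℂ) (he : (X : Matrix (Fin n) (Fin n) ℂ) *ᵥ e = 0) (hq : 0 < q M e) :
    M - (q M e)⁻¹ • outer ((X : Matrix (Fin n) (Fin n) ℂ) *ᵥ p +
      (M : Matrix (Fin n) (Fin n) ℂ) *ᵥ e) ∈ closure (SC C X) := by
  set Ψ : Herm n × ℝ → Herm n := fun z => z.1 - (cc X e p z)⁻¹ • outer (gg X e p z) with hΨ
  have hg0 : gg X e p (M, 0) = (X : Matrix (Fin n) (Fin n) ℂ) *ᵥ p +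
      (M : Matrix (Fin n) (Fin n) ℂ) *ᵥ e := by
    simp [gg]
  have hXe : star e ⬝ᵥ ((X : Matrix (Fin n) (Fin n) ℂ) *ᵥ p) = 0 := by
    rw [form_symm, he]
    simp
  have hc0 : cc X e p (M, 0) = q M e := by
    unfold cc
    rw [hg0]
    simp only [Complex.ofReal_zero, zero_smul, add_zero]
    rw [dotProduct_add, hXe, zero_add]
    rfl
  have hΨ0 : Ψ (M, 0) = M - (q M e)⁻¹ • outer ((X : Matrix (Fin n) (Fin n) ℂ) *ᵥ p +
      (M : Matrix (Fin n) (Fin n) ℂ) *ᵥ e) := by
    simp only [hΨ, hc0, hg0]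
  rw [← hΨ0]
  have hcont : ContinuousAt Ψ (M, 0) := by
    refine continuousAt_fst.sub (ContinuousAt.fun_smul ?_ ?_)
    · refine ContinuousAt.inv₀ (continuous_cc X e p).continuousAt ?_
      rw [hc0]
      exact hq.ne'
    · exact (continuous_outer.comp (continuous_gg X e p)).continuousAt
  rw [mem_closure_iff_nhds]
  intro U hU
  have h1 : ∀ᶠ z in 𝓝 (M, (0 : ℝ)), Ψ z ∈ U := hcont hU
  have h2 : ∀ᶠ z in 𝓝 (M, (0 : ℝ)), 0 < cc X e p z :=
    (continuous_cc X e p).continuousAt.eventually (lt_mem_nhds (by rw [hc0]; exact hq))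
  have h3 := h1.and h2
  rw [nhds_prod_eq, eventually_prod_iff] at h3
  obtain ⟨pa, hpa, pb, hpb, h4⟩ := h3
  obtain ⟨M', hM', hpaM'⟩ := ((mem_closure_iff_frequently.1 hM).and_eventually hpa).exists
  obtain ⟨t, ht, A, hA, hM'e⟩ := hM'
  have h5 : ∀ᶠ s in 𝓝[>] (0 : ℝ), pb s := hpb.filter_mono nhdsWithin_le_nhds
  have h6 : ∀ᶠ s in 𝓝[>] (0 : ℝ), s < 1 / (t + 1) :=
    (gt_mem_nhds (by positivity)).filter_mono nhdsWithin_le_nhds
  obtain ⟨s, ⟨h7, h8⟩, h9⟩ := ((h5.and h6).and self_mem_nhdsWithin).exists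
  have hs : 0 < s := h9
  obtain ⟨h10, h11⟩ := h4 hpaM' h7
  refine ⟨Ψ (M', s), h10, ?_⟩
  -- `X + s M' ∈ C`
  have hst : s * t ≤ 1 := by
    rw [lt_div_iff₀ (by positivity)] at h8
    nlinarith
  have hXs : X + s • M' ∈ C := by
    have := hC.convex hX hA (show 0 ≤ 1 - s * t by linarith) (by positivity)
      (show (1 - s * t) + s * t = 1 by ring)
    convert this using 1
    rw [hM'e]
    module
  set f : Fin n → ℂ := e + (s : ℂ) • p with hf
  have hAf : ((X + s • M' : Herm n) : Matrix (Fin n) (Fin n) ℂ) *ᵥ f =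
      (s : ℂ) • gg X e p (M', s) := by
    have h12 : ((s • M' : Herm n) : Matrix (Fin n) (Fin n) ℂ) =
        (s : ℂ) • (M' : Matrix (Fin n) (Fin n) ℂ) := by
      ext i j
      simp [Complex.real_smul]
    rw [Submodule.coe_add, h12, hf, add_mulVec, mulVec_add, mulVec_add, he, mulVec_smul,
      smul_mulVec, smul_mulVec, mulVec_smul]
    simp only [gg, smul_add]
    abel
  have hqf : q (X + s • M') f = s * cc X e p (M', s) := by
    unfold q
    rw [hAf, dotProduct_smul, smul_eq_mul, Complex.re_ofReal_mul]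
    rfl
  have hqpos : 0 < q (X + s • M') f := by rw [hqf]; positivity
  have hmem : X + s • M' - (q (X + s • M') f)⁻¹ •
      outer (((X + s • M' : Herm n) : Matrix (Fin n) (Fin n) ℂ) *ᵥ f) ∈ C := by
    apply hC.hereditary _ hXs _ (psd_reduce (hC.psd _ hXs) f hqpos)
    rw [sub_sub_cancel]
    exact psd_smul (psd_outer _) (inv_nonneg.2 hqpos.le)
  refine ⟨s⁻¹, by positivity, _, hmem, ?_⟩
  rw [hAf, outer_smul, hqf, smul_smul]
  have h13 : (s * cc X e p (M', s))⁻¹ * s ^ 2 = s * (cc X e p (M', s))⁻¹ := by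
    field_simp
  rw [h13, ← smul_smul]
  simp only [hΨ]
  rw [add_sub_assoc, add_sub_cancel_left, smul_sub, smul_smul, smul_smul, smul_smul,
    inv_mul_cancel₀ hs.ne', one_smul, one_mul]

/-- factorisation of a matrix through another one with smaller kernel -/
lemma factor (A B : Matrix (Fin n) (Fin n) ℂ) (h : ∀ x, A *ᵥ x = 0 → B *ᵥ x = 0) :
    ∃ L : Matrix (Fin n) (Fin n) ℂ, B = L * A := by
  obtain ⟨g, hg⟩ := LinearMap.exists_rightInverse_of_surjective (toLin' A).rangeRestrict
    (LinearMap.range_rangeRestrict _)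
  obtain ⟨L, hL⟩ := LinearMap.exists_extend ((toLin' B).comp g)
  refine ⟨LinearMap.toMatrix' L, ?_⟩
  apply (toLin' (R := ℂ)).injective
  rw [toLin'_mul, toLin'_toMatrix']
  refine LinearMap.ext fun x => ?_
  have h1 : L ((toLin' A) x) = (toLin' B) (g ((toLin' A).rangeRestrict x)) :=
    LinearMap.congr_fun hL ((toLin' A).rangeRestrict x)
  have h2 : (toLin' A).rangeRestrict (g ((toLin' A).rangeRestrict x)) =
      (toLin' A).rangeRestrict x := LinearMap.congr_fun hg _
  have h3 : A *ᵥ (g ((toLin' A).rangeRestrict x) - x) = 0 := by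
    have h4 := congrArg Subtype.val h2
    rw [mulVec_sub]
    have h5 : A *ᵥ (g ((toLin' A).rangeRestrict x)) = A *ᵥ x := by
      simpa using h4
    rw [h5, sub_self]
  have h6 := h _ h3
  rw [mulVec_sub, sub_eq_zero] at h6
  rw [LinearMap.comp_apply, h1, toLin'_apply, toLin'_apply, h6]

/-- the matrix `u v* + v u*` -/
noncomputable def cross (u v : Fin n → ℂ) : Herm n :=
  ⟨vecMulVec u (star v) + vecMulVec v (star u), by
    show (vecMulVec u (star v) + vecMulVec v (star u))ᴴ = _
    rw [conjTranspose_add, conjTranspose_vecMulVec, conjTranspose_vecMulVec, star_star,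
      star_star, add_comm]⟩

lemma outer_add_smul (c : ℝ) (u v : Fin n → ℂ) :
    outer ((c : ℂ) • u + v) = (c ^ 2) • outer u + c • cross u v + outer v := by
  apply Subtype.ext
  ext i j
  simp only [outer, cross, vecMulVec_apply, Pi.smul_apply, Pi.star_apply, Pi.add_apply,
    smul_eq_mul, star_mul', star_add, Submodule.coe_smul, Submodule.coe_add, Matrix.smul_apply,
    Matrix.add_apply, Complex.real_smul]
  rw [Complex.star_def, Complex.conj_ofReal]
  push_cast
  ring

lemma cross_mulVec (u v x : Fin n → ℂ) :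
    ((cross u v : Herm n) : Matrix (Fin n) (Fin n) ℂ) *ᵥ x =
      (star v ⬝ᵥ x) • u + (star u ⬝ᵥ x) • v := by
  ext i
  simp only [cross, mulVec, dotProduct, vecMulVec_apply, Matrix.add_apply, Pi.add_apply,
    Pi.smul_apply, smul_eq_mul, Finset.sum_mul]
  rw [← Finset.sum_add_distrib]
  exact Finset.sum_congr rfl fun j _ => by ring

lemma coe_smul_mulVec (c : ℝ) (M : Herm n) (x : Fin n → ℂ) :
    ((c • M : Herm n) : Matrix (Fin n) (Fin n) ℂ) *ᵥ x =
      (c : ℂ) • ((M : Matrix (Fin n) (Fin n) ℂ) *ᵥ x) := by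
  have : ((c • M : Herm n) : Matrix (Fin n) (Fin n) ℂ) =
      (c : ℂ) • (M : Matrix (Fin n) (Fin n) ℂ) := by
    ext i j
    simp [Complex.real_smul]
  rw [this, smul_mulVec]

lemma coe_sub_mulVec (M N : Herm n) (x : Fin n → ℂ) :
    ((M - N : Herm n) : Matrix (Fin n) (Fin n) ℂ) *ᵥ x =
      (M : Matrix (Fin n) (Fin n) ℂ) *ᵥ x - (N : Matrix (Fin n) (Fin n) ℂ) *ᵥ x := by
  rw [Submodule.coe_sub, sub_mulVec]

lemma star_mulVec_dot (M : Herm n) (f x : Fin n → ℂ) :
    star ((M : Matrix (Fin n) (Fin n) ℂ) *ᵥ f) ⬝ᵥ x =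
      star f ⬝ᵥ ((M : Matrix (Fin n) (Fin n) ℂ) *ᵥ x) := by
  rw [star_mulVec, herm_coe, dotProduct_mulVec]

lemma ext_zero {M : Herm n} (h : ∀ x, (M : Matrix (Fin n) (Fin n) ℂ) *ᵥ x = 0) : M = 0 := by
  apply Subtype.ext
  ext i j
  have := congrFun (h (Pi.single j 1)) i
  simpa using this

/-- limit of `S - μ U` for `μ → 0+` -/
lemma limit_mem {S U : Herm n} {D : Set (Herm n)} (hD : IsClosed D)
    (h : ∀ μ : ℝ, 0 < μ → S - μ • U ∈ D) : S ∈ D := by
  have h1 : Tendsto (fun μ : ℝ => S - μ • U) (𝓝[>] 0) (𝓝 S) := by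
    have h2 : Continuous fun μ : ℝ => S - μ • U :=
      continuous_const.sub (continuous_id.smul continuous_const)
    have h3 := h2.tendsto 0
    simp only [zero_smul, sub_zero] at h3
    exact h3.mono_left nhdsWithin_le_nhds
  exact hD.mem_of_tendsto h1 (eventually_mem_nhdsWithin.mono fun μ hμ => h μ hμ)

/-- The tangent cone of `C` at a nonzero vertex contains no nonzero positive semidefinite
matrix. -/
lemma no_psd (hC : IsConvexCorner C) (hX : IsVertex C X) (hX0 : X ≠ 0) {M0 : Herm n}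
    (hM0 : M0 ∈ closure (SC C X)) (hM0psd : Psd M0) : M0 = 0 := by
  by_contra hM0ne
  have hXC := hX.1
  set S : Set (Submodule ℂ (Fin n → ℂ)) := {K | ∃ M : Herm n, M ∈ closure (SC C X) ∧ Psd M ∧
    M ≠ 0 ∧ LinearMap.ker (M : Matrix (Fin n) (Fin n) ℂ).mulVecLin = K} with hS
  obtain ⟨K, ⟨M, hM, hMpsd, hMne, hMK⟩, hmax⟩ :=
    set_has_maximal_iff_noetherian.2 (inferInstance : IsNoetherian ℂ (Fin n → ℂ)) S
      ⟨_, M0, hM0, hM0psd, hM0ne, rfl⟩
  -- any reduction of `M` in the cone vanishes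
  have step : ∀ e, 0 < q M e → M - (q M e)⁻¹ • outer ((M : Matrix (Fin n) (Fin n) ℂ) *ᵥ e) ∈
      closure (SC C X) → M = (q M e)⁻¹ • outer ((M : Matrix (Fin n) (Fin n) ℂ) *ᵥ e) := by
    intro e he hmem
    by_contra hne
    set N := M - (q M e)⁻¹ • outer ((M : Matrix (Fin n) (Fin n) ℂ) *ᵥ e) with hN
    have hNmul : ∀ x, (N : Matrix (Fin n) (Fin n) ℂ) *ᵥ x =
        (M : Matrix (Fin n) (Fin n) ℂ) *ᵥ x - ((q M e)⁻¹ : ℂ) •
          ((star e ⬝ᵥ ((M : Matrix (Fin n) (Fin n) ℂ) *ᵥ x)) •
            ((M : Matrix (Fin n) (Fin n) ℂ) *ᵥ e)) := by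
      intro x
      rw [hN, coe_sub_mulVec, coe_smul_mulVec, outer_mulVec, star_mulVec_dot]
      push_cast
      rfl
    refine hmax _ ⟨N, hmem, psd_reduce hMpsd e he, sub_ne_zero.2 hne, rfl⟩ ?_
    rw [← hMK]
    refine lt_of_le_of_ne ?_ ?_
    · intro x hx
      rw [LinearMap.mem_ker, mulVecLin_apply] at hx ⊢
      rw [hNmul, hx]
      simp
    · intro heq
      have h1 : e ∈ LinearMap.ker (N : Matrix (Fin n) (Fin n) ℂ).mulVecLin := by
        rw [LinearMap.mem_ker, mulVecLin_apply, hNmul, q_complex, smul_smul]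
        have : ((q M e)⁻¹ : ℂ) * (q M e : ℂ) = 1 := by
          apply inv_mul_cancel₀
          exact_mod_cast he.ne'
        rw [this, one_smul, sub_self]
      rw [← heq, LinearMap.mem_ker, mulVecLin_apply] at h1
      unfold q at he
      rw [h1] at he
      simp at he
  by_cases hcase : ∃ e, (X : Matrix (Fin n) (Fin n) ℂ) *ᵥ e = 0 ∧ 0 < q M e
  · obtain ⟨e, he, hq⟩ := hcase
    have h1 := reduceT hC hXC hM e 0 he hq
    rw [mulVec_zero, zero_add] at h1
    have hMeq := step e hq h1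
    set v := (M : Matrix (Fin n) (Fin n) ℂ) *ᵥ e with hv
    apply hX0
    -- show `X p = 0` for all `p`
    have hXp : ∀ p, (X : Matrix (Fin n) (Fin n) ℂ) *ᵥ p = 0 := by
      intro p
      set u := (X : Matrix (Fin n) (Fin n) ℂ) *ᵥ p with hu
      have h2 : ∀ c : ℝ, -(c ^ 2) • outer u - c • cross u v ∈ closure (SC C X) := by
        intro c
        have h3 := reduceT hC hXC hM e ((c : ℂ) • p) he hq
        rw [mulVec_smul, ← hu, ← hv, outer_add_smul] at h3
        have h4 := T_smul h3 hq.le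
        convert h4 using 1
        have h5 : q M e • M = outer v := by
          have h6 := congrArg (fun Z => q M e • Z) hMeq
          rw [h6, smul_smul, mul_inv_cancel₀ hq.ne', one_smul]
        rw [smul_sub, h5, smul_smul, mul_inv_cancel₀ hq.ne', one_smul]
        module
      have h3 : -cross u v ∈ closure (SC C X) := by
        apply limit_mem isClosed_closure (U := outer u)
        intro μ hμ
        have h4 := T_smul (h2 μ) (inv_nonneg.2 hμ.le)
        convert h4 using 1
        rw [smul_sub, smul_smul, smul_smul, inv_mul_cancel₀ hμ.ne', one_smul]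
        have : μ⁻¹ * -μ ^ 2 = -μ := by field_simp
        rw [this]
        module
      have h4 : cross u v ∈ closure (SC C X) := by
        apply limit_mem isClosed_closure (U := outer u)
        intro μ hμ
        have h4 := T_smul (h2 (-μ)) (inv_nonneg.2 hμ.le)
        convert h4 using 1
        rw [smul_sub, smul_smul, smul_smul]
        have e1 : μ⁻¹ * -(-μ) ^ 2 = -μ := by field_simp
        have e2 : μ⁻¹ * -μ = -1 := by field_simp
        rw [e1, e2]
        module
      have h5 := pointed hX h4 h3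
      have h6 : ((cross u v : Herm n) : Matrix (Fin n) (Fin n) ℂ) *ᵥ e = 0 := by
        rw [h5]; simp
      rw [cross_mulVec, hu, hv, star_mulVec_dot, star_mulVec_dot, he, dotProduct_zero, zero_smul,
        add_zero, q_complex] at h6
      rw [hu]
      rcases smul_eq_zero.1 h6 with h7 | h7
      · exfalso
        exact hq.ne' (by exact_mod_cast h7)
      · exact h7
    exact ext_zero hXp
  · push Not at hcase
    have hker : ∀ x, (X : Matrix (Fin n) (Fin n) ℂ) *ᵥ x = 0 →
        (M : Matrix (Fin n) (Fin n) ℂ) *ᵥ x = 0 := by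
      intro x hx
      exact mulVec_zero_of_q hMpsd (le_antisymm (hcase x hx) ((psd_iff M).1 hMpsd x))
    obtain ⟨L, hL⟩ := factor _ _ hker
    have hL' : (M : Matrix (Fin n) (Fin n) ℂ) = (X : Matrix (Fin n) (Fin n) ℂ) * Lᴴ := by
      have := congrArg conjTranspose hL
      rwa [conjTranspose_mul, herm_coe, herm_coe] at this
    obtain ⟨f, hf⟩ : ∃ f, 0 < q M f := by
      by_contra h
      push Not at h
      apply hMne
      exact ext_zero fun x =>
        mulVec_zero_of_q hMpsd (le_antisymm (h _) ((psd_iff M).1 hMpsd _))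
    have hMf : (M : Matrix (Fin n) (Fin n) ℂ) *ᵥ f =
        (X : Matrix (Fin n) (Fin n) ℂ) *ᵥ (Lᴴ *ᵥ f) := by
      rw [mulVec_mulVec, ← hL']
    have h1 : -outer ((M : Matrix (Fin n) (Fin n) ℂ) *ᵥ f) ∈ closure (SC C X) := by
      rw [hMf]
      exact subset_closure (neg_outer_mem hC hXC _)
    have h2 := T_smul h1 (inv_nonneg.2 hf.le)
    rw [smul_neg] at h2
    have h3 := T_add hC.convex hM h2
    rw [← sub_eq_add_neg] at h3
    have h4 := step f hf h3
    rw [← h4] at h2
    exact hMne (pointed hX hM h2)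

end cone

/-- the pairing as a bilinear map -/
noncomputable def pairL : Herm n →ₗ[ℝ] Herm n →ₗ[ℝ] ℝ :=
  LinearMap.mk₂ ℝ pair pair_add_left pair_smul_left pair_add_right pair_smul_right

lemma pair_nondeg {Y : Herm n} (h : ∀ M, pair M Y = 0) : Y = 0 := by
  have h1 : ∀ x, q Y x = 0 := fun x => by rw [← pair_outer, h]
  have h2 : Psd Y := (psd_iff Y).2 fun x => (h1 x).ge
  exact ext_zero fun x => mulVec_zero_of_q h2 (h1 x)

lemma riesz (f : Herm n →ₗ[ℝ] ℝ) : ∃ Y : Herm n, ∀ M, f M = pair M Y := by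
  have hinj : Function.Injective (pairL (n := n)) := by
    rw [injective_iff_map_eq_zero]
    intro Y hY
    apply pair_nondeg
    intro M
    rw [pair_comm]
    exact LinearMap.congr_fun hY M
  have hsurj := (LinearMap.injective_iff_surjective_of_finrank_eq_finrank
    (f := pairL (n := n)) (Subspace.dual_finrank_eq (K := ℝ) (V := Herm n)).symm).1 hinj
  obtain ⟨Y, hY⟩ := hsurj f
  refine ⟨Y, fun M => ?_⟩
  rw [← hY, pair_comm]
  rfl

lemma finrank_herm : Module.finrank ℝ (Herm n) = n ^ 2 := by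
  let φ : (Herm n × Herm n) →ₗ[ℝ] Matrix (Fin n) (Fin n) ℂ :=
    { toFun := fun z => (z.1 : Matrix (Fin n) (Fin n) ℂ) +
        Complex.I • (z.2 : Matrix (Fin n) (Fin n) ℂ)
      map_add' := fun z w => by
        simp only [Prod.fst_add, Prod.snd_add, Submodule.coe_add, smul_add]
        abel
      map_smul' := fun c z => by
        ext i j
        simp [Complex.real_smul]
        ring }
  have hφ : Function.Bijective φ := by
    constructor
    · rw [injective_iff_map_eq_zero]
      rintro ⟨A, B⟩ h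
      have h1 : (A : Matrix (Fin n) (Fin n) ℂ) + Complex.I • (B : Matrix (Fin n) (Fin n) ℂ) = 0 := h
      have h2 := congrArg conjTranspose h1
      rw [conjTranspose_add, conjTranspose_smul, herm_coe, herm_coe, conjTranspose_zero,
        Complex.star_def, Complex.conj_I, neg_smul] at h2
      have hA : (A : Matrix (Fin n) (Fin n) ℂ) = 0 := by
        ext i j
        have e1 := congrFun (congrFun h1 i) j
        have e2 := congrFun (congrFun h2 i) j
        simp only [Matrix.add_apply, Matrix.smul_apply, Matrix.neg_apply, smul_eq_mul,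
          Matrix.zero_apply] at e1 e2 ⊢
        linear_combination (e1 + e2) / 2
      have hB : (B : Matrix (Fin n) (Fin n) ℂ) = 0 := by
        ext i j
        have e1 := congrFun (congrFun h1 i) j
        rw [hA] at e1
        simp only [Matrix.add_apply, Matrix.smul_apply, smul_eq_mul,
          Matrix.zero_apply, zero_add, mul_eq_zero, Complex.I_ne_zero, false_or] at e1 ⊢
        exact e1
      exact Prod.ext (Subtype.ext hA) (Subtype.ext hB)
    · intro M
      refine ⟨(⟨(2⁻¹ : ℂ) • (M + Mᴴ), ?_⟩, ⟨(-(Complex.I) * 2⁻¹ : ℂ) • (M - Mᴴ), ?_⟩), ?_⟩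
      · show ((2⁻¹ : ℂ) • (M + Mᴴ))ᴴ = _
        rw [conjTranspose_smul, conjTranspose_add, conjTranspose_conjTranspose, add_comm]
        congr 1
        simp
      · show ((-(Complex.I) * 2⁻¹ : ℂ) • (M - Mᴴ))ᴴ = _
        rw [conjTranspose_smul, conjTranspose_sub, conjTranspose_conjTranspose]
        have : star (-(Complex.I) * 2⁻¹ : ℂ) = -(-(Complex.I) * 2⁻¹) := by
          simp
        rw [this, neg_smul, ← smul_neg, neg_sub]
      · show (2⁻¹ : ℂ) • (M + Mᴴ) + Complex.I • ((-(Complex.I) * 2⁻¹ : ℂ) • (M - Mᴴ)) = M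
        rw [smul_smul]
        have : Complex.I * (-(Complex.I) * 2⁻¹) = 2⁻¹ := by
          rw [← mul_assoc, mul_neg, Complex.I_mul_I]
          norm_num
        rw [this, ← smul_add]
        have : M + Mᴴ + (M - Mᴴ) = (2 : ℂ) • M := by
          rw [two_smul]; abel
        rw [this, smul_smul]
        norm_num
  have h1 := (LinearEquiv.ofBijective φ hφ).finrank_eq
  rw [Module.finrank_prod, Module.finrank_matrix, Complex.finrank_real_complex,
    Fintype.card_fin] at h1
  nlinarith

/-- the base of the cone of positive semidefinite matrices -/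
def base (n : ℕ) : Set (Herm n) :=
  {M | Psd M ∧ (trace (M : Matrix (Fin n) (Fin n) ℂ)).re = 1}

lemma entry_bound {M : Herm n} (hM : Psd M) (i j : Fin n) :
    ‖(M : Matrix (Fin n) (Fin n) ℂ) i j‖ ≤ (trace (M : Matrix (Fin n) (Fin n) ℂ)).re := by
  obtain ⟨m, v, hv⟩ := Matrix.posSemidef_iff_eq_sum_vecMulVec.1 hM
  rw [hv]
  have h1 : ∀ k l : Fin n, (∑ a, vecMulVec (v a) (star (v a))) k l = ∑ a, v a k * star (v a l) := by
    intro k l
    rw [Matrix.sum_apply]
    rfl
  have h2 : (trace (∑ a, vecMulVec (v a) (star (v a)))).re = ∑ l, ∑ a, ‖v a l‖ ^ 2 := by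
    rw [trace]
    simp only [diag_apply, h1, Complex.re_sum]
    refine Finset.sum_congr rfl fun l _ => Finset.sum_congr rfl fun a _ => ?_
    rw [Complex.star_def, Complex.mul_conj, Complex.ofReal_re, Complex.normSq_eq_norm_sq]
  rw [h1, h2]
  have h3 : ∀ l, ∑ a, ‖v a l‖ ^ 2 ≤ ∑ l, ∑ a, ‖v a l‖ ^ 2 := fun l =>
    Finset.single_le_sum (f := fun l => ∑ a, ‖v a l‖ ^ 2)
      (fun l _ => Finset.sum_nonneg fun a _ => by positivity) (Finset.mem_univ l)
  calc ‖∑ a, v a i * star (v a j)‖ ≤ ∑ a, ‖v a i * star (v a j)‖ := norm_sum_le _ _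
    _ ≤ ∑ a, (‖v a i‖ ^ 2 + ‖v a j‖ ^ 2) / 2 := by
        refine Finset.sum_le_sum fun a _ => ?_
        rw [norm_mul, norm_star]
        nlinarith [sq_nonneg (‖v a i‖ - ‖v a j‖)]
    _ = ((∑ a, ‖v a i‖ ^ 2) + ∑ a, ‖v a j‖ ^ 2) / 2 := by
        rw [← Finset.sum_div, Finset.sum_add_distrib]
    _ ≤ _ := by linarith [h3 i, h3 j]

lemma continuous_pair_right (M : Herm n) : Continuous fun Y : Herm n => pair M Y := by
  simp_rw [pair_comm M]
  exact continuous_pair_left M

lemma closed_psd : IsClosed {M : Herm n | Psd M} := by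
  have : {M : Herm n | Psd M} = ⋂ x : Fin n → ℂ, {M | 0 ≤ pair (outer x) M} := by
    ext M
    simp only [Set.mem_ofPred_eq, Set.mem_iInter, pair_outer]
    exact psd_iff M
  rw [this]
  exact isClosed_iInter fun x => isClosed_le continuous_const (continuous_pair_right _)

lemma continuous_trace : Continuous fun M : Herm n =>
    (trace (M : Matrix (Fin n) (Fin n) ℂ)).re :=
  Complex.continuous_re.comp continuous_subtype_val.matrix_trace

lemma compact_base : IsCompact (base n) := by
  have hcl : IsClosed (base n) :=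
    closed_psd.inter (isClosed_eq continuous_trace continuous_const)
  have hK : IsCompact ({B | ∀ i j, ‖B i j‖ ≤ 1} : Set (Matrix (Fin n) (Fin n) ℂ)) := by
    have h1 : IsCompact (Set.pi Set.univ fun _ : Fin n => Set.pi Set.univ fun _ : Fin n =>
        Metric.closedBall (0 : ℂ) 1) :=
      isCompact_univ_pi fun i => isCompact_univ_pi fun j => isCompact_closedBall (0 : ℂ) 1
    have h2 : ({B | ∀ i j, ‖B i j‖ ≤ 1} : Set (Matrix (Fin n) (Fin n) ℂ)) =
        Set.pi Set.univ fun _ : Fin n => Set.pi Set.univ fun _ : Fin n =>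
        Metric.closedBall (0 : ℂ) 1 := by
      ext B
      constructor
      · intro h i _ j _
        simpa using h i j
      · intro h i j
        simpa using h i (Set.mem_univ i) j (Set.mem_univ j)
    rw [h2]
    exact h1
  have hemb : Topology.IsClosedEmbedding
      (Subtype.val : Herm n → Matrix (Fin n) (Fin n) ℂ) := by
    apply IsClosed.isClosedEmbedding_subtypeVal
    have : IsClosed {M : Matrix (Fin n) (Fin n) ℂ | Mᴴ = M} :=
      isClosed_eq continuous_id.matrix_conjTranspose continuous_id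
    exact this
  refine (hemb.isCompact_preimage hK).of_isClosed_subset hcl ?_
  rintro M ⟨h1, h2⟩
  show ∀ i j, ‖(M : Matrix (Fin n) (Fin n) ℂ) i j‖ ≤ 1
  intro i j
  rw [← h2]
  exact entry_bound h1 i j

lemma convex_base : Convex ℝ (base n) := by
  rintro M ⟨h1, h2⟩ N ⟨h3, h4⟩ a b ha hb hab
  refine ⟨psd_add (psd_smul h1 ha) (psd_smul h3 hb), ?_⟩
  simp only [Submodule.coe_add, Submodule.coe_smul, trace_add, trace_smul, Complex.add_re,
    Complex.real_smul, Complex.re_ofReal_mul, h2, h4]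
  linarith

lemma exists_pd {C : Set (Herm n)} {X : Herm n} (hC : IsConvexCorner C) (hX : IsVertex C X)
    (hX0 : X ≠ 0) : ∃ Y : Herm n, (∀ A ∈ C, pair A Y ≤ pair X Y) ∧
      ∃ c : ℝ, 0 < c ∧ ∀ M ∈ base n, c ≤ pair M Y := by
  have hTconv : Convex ℝ (closure (SC C X)) := by
    intro M hM N hN a b ha hb _
    exact T_add hC.convex (T_smul hM ha) (T_smul hN hb)
  have hdisj : Disjoint (base n) (closure (SC C X)) := by
    rw [Set.disjoint_left]
    rintro M ⟨h1, h2⟩ h3
    have := no_psd hC hX hX0 h3 h1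
    rw [this] at h2
    simp at h2
  have : LocallyConvexSpace ℝ (Matrix (Fin n) (Fin n) ℂ) :=
    inferInstanceAs (LocallyConvexSpace ℝ (Fin n → Fin n → ℂ))
  obtain ⟨f, u, v, hu, huv, hv⟩ := geometric_hahn_banach_compact_closed convex_base compact_base
    hTconv isClosed_closure hdisj
  have h0 : (0 : Herm n) ∈ closure (SC C X) := by
    apply subset_closure
    exact ⟨0, le_rfl, X, hX.1, by simp⟩
  have hv0 : v < 0 := by simpa using hv 0 h0
  have hfT : ∀ M ∈ closure (SC C X), 0 ≤ f M := by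
    intro M hM
    by_contra h
    push Not at h
    have h1 := hv _ (T_smul hM (c := v / f M) (div_nonneg_of_nonpos hv0.le h.le))
    rw [map_smul, smul_eq_mul, div_mul_cancel₀ _ h.ne] at h1
    exact lt_irrefl _ h1
  obtain ⟨Y, hY⟩ := riesz (-(f : Herm n →ₗ[ℝ] ℝ))
  have hY' : ∀ M, pair M Y = - f M := fun M => by rw [← hY]; rfl
  refine ⟨Y, fun A hA => ?_, -u, by linarith, fun M hM => ?_⟩
  · have h1 : A - X ∈ closure (SC C X) :=
      subset_closure ⟨1, zero_le_one, A, hA, by rw [one_smul]⟩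
    have h2 := hfT _ h1
    have h3 := hY' (A - X)
    rw [pair_sub_left] at h3
    linarith
  · rw [hY']
    have := hu M hM
    linarith

lemma tr_nonneg {M : Herm n} (hM : Psd M) :
    0 ≤ (trace (M : Matrix (Fin n) (Fin n) ℂ)).re := by
  have h : 0 ≤ trace (M : Matrix (Fin n) (Fin n) ℂ) := Matrix.PosSemidef.trace_nonneg hM
  exact (Complex.le_def.1 h).1

lemma tr_zero {M : Herm n} (hM : Psd M) (h : (trace (M : Matrix (Fin n) (Fin n) ℂ)).re = 0) :
    M = 0 := by
  apply Subtype.ext
  ext i j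
  have h1 := entry_bound hM i j
  rw [h] at h1
  simpa using norm_le_zero_iff.1 h1

/-- For every convex corner `C` and every nonzero vertex `X` of `C`, the set
`{Z ∈ C♯ | Tr (X Z) = 1}` is a facet of the anti-blocker `C♯`. -/
theorem result (n : ℕ) (C : Set (Herm n)) (hC : IsConvexCorner C) (X : Herm n)
    (hX : IsVertex C X) (hX0 : X ≠ 0) :
    IsFacet (antiBlocker C) {Z | Z ∈ antiBlocker C ∧ pair X Z = 1} := by
  obtain ⟨Y0, hY0, c, hc, hbase⟩ := exists_pd hC hX hX0
  have hXC := hX.1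
  have hXpsd := hC.psd X hXC
  have h0C : (0 : Herm n) ∈ C := by
    apply hC.hereditary X hXC 0 psd_zero
    rw [sub_zero]
    exact hXpsd
  set N : Set (Herm n) := {Y | ∀ A ∈ C, pair A Y ≤ pair X Y} with hN
  have hpair0 : ∀ Y : Herm n, pair 0 Y = 0 := by
    intro Y
    simp [pair]
  have hNpos : ∀ Y ∈ N, 0 ≤ pair X Y := by
    intro Y hY
    have := hY 0 h0C
    rwa [hpair0] at this
  -- elements of the base
  have hqpos : ∀ (Y : Herm n) (d : ℝ), (∀ M ∈ base n, d ≤ pair M Y) → ∀ M, Psd M →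
      d * (trace (M : Matrix (Fin n) (Fin n) ℂ)).re ≤ pair M Y := by
    intro Y d hd M hM
    rcases (tr_nonneg hM).eq_or_lt with h | h
    · rw [tr_zero hM h.symm, hpair0]
      simp
    · have h1 := hd (((trace (M : Matrix (Fin n) (Fin n) ℂ)).re)⁻¹ • M)
        ⟨psd_smul hM (inv_nonneg.2 h.le), by
          rw [Submodule.coe_smul, trace_smul, Complex.real_smul, Complex.re_ofReal_mul,
            inv_mul_cancel₀ h.ne']⟩
      rw [pair_smul_left] at h1
      have h2 := mul_le_mul_of_nonneg_left h1 h.le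
      rw [← mul_assoc, mul_inv_cancel₀ h.ne', one_mul] at h2
      linarith
  have htrX : 0 < (trace (X : Matrix (Fin n) (Fin n) ℂ)).re := by
    rcases (tr_nonneg hXpsd).eq_or_lt with h | h
    · exact absurd (tr_zero hXpsd h.symm) hX0
    · exact h
  have hXY0 : 0 < pair X Y0 :=
    lt_of_lt_of_le (mul_pos hc htrX) (hqpos Y0 c hbase X hXpsd)
  set F : Set (Herm n) := {Z | Z ∈ antiBlocker C ∧ pair X Z = 1} with hF
  -- members of F
  have hmem : ∀ W ∈ N, Psd W → 0 < pair X W → (pair X W)⁻¹ • W ∈ F := by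
    intro W hW hWpsd hpos
    refine ⟨⟨psd_smul hWpsd (inv_nonneg.2 hpos.le), fun A hA => ?_⟩, ?_⟩
    · rw [pair_smul_right]
      have := mul_le_mul_of_nonneg_left (hW A hA) (inv_nonneg.2 hpos.le)
      rwa [inv_mul_cancel₀ hpos.ne'] at this
    · rw [pair_smul_right, inv_mul_cancel₀ hpos.ne']
  have hY0psd : Psd Y0 := by
    rw [psd_iff]
    intro x
    rw [← pair_outer]
    exact (mul_nonneg hc.le (tr_nonneg (psd_outer x))).trans (hqpos Y0 c hbase _ (psd_outer x))
  have hY0N : Y0 ∈ N := hY0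
  have hz0 := hmem Y0 hY0N hY0psd hXY0
  set z0 := (pair X Y0)⁻¹ • Y0 with hz0def
  -- the span of `F`
  have hY0span : Y0 ∈ Submodule.span ℝ F := by
    have h1 := Submodule.smul_mem _ (pair X Y0) (Submodule.subset_span (R := ℝ) hz0)
    rwa [hz0def, smul_smul, mul_inv_cancel₀ hXY0.ne', one_smul] at h1
  have hNspan : ∀ Y ∈ N, Y ∈ Submodule.span ℝ F := by
    intro Y hY
    obtain ⟨K, hK⟩ := compact_base.exists_bound_of_continuousOn
      (continuous_pair_left (n := n) Y).continuousOn
    set ε : ℝ := c / (|K| + 1) with hε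
    have hεpos : 0 < ε := by positivity
    have hWpsd : Psd (Y0 + ε • Y) := by
      rw [psd_iff]
      intro x
      rw [← pair_outer]
      have h1 : ∀ M ∈ base n, (0 : ℝ) ≤ pair M (Y0 + ε • Y) := by
        intro M hM
        rw [pair_add_right, pair_smul_right]
        have h2 := hbase M hM
        have h3 := hK M hM
        rw [Real.norm_eq_abs] at h3
        have h4 : |pair M Y| ≤ |K| + 1 := by linarith [le_abs_self K]
        have h5 : ε * (|K| + 1) = c := by rw [hε]; field_simp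
        have h6 : -(ε * |pair M Y|) ≤ ε * pair M Y := by
          have := neg_abs_le (pair M Y)
          nlinarith
        have h7 : ε * |pair M Y| ≤ ε * (|K| + 1) := mul_le_mul_of_nonneg_left h4 hεpos.le
        linarith
      have := hqpos _ 0 h1 _ (psd_outer x)
      linarith
    have hWN : Y0 + ε • Y ∈ N := by
      intro A hA
      rw [pair_add_right, pair_add_right, pair_smul_right, pair_smul_right]
      have := hY0N A hA
      have := mul_le_mul_of_nonneg_left (hY A hA) hεpos.le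
      linarith
    have hWpos : 0 < pair X (Y0 + ε • Y) := by
      rw [pair_add_right, pair_smul_right]
      have := mul_nonneg hεpos.le (hNpos Y hY)
      linarith
    have h1 := Submodule.smul_mem _ (pair X (Y0 + ε • Y))
      (Submodule.subset_span (R := ℝ) (hmem _ hWN hWpsd hWpos))
    rw [smul_smul, mul_inv_cancel₀ hWpos.ne', one_smul] at h1
    have h2 := Submodule.smul_mem _ ε⁻¹ (Submodule.sub_mem _ h1 hY0span)
    rwa [add_sub_cancel_left, smul_smul, inv_mul_cancel₀ hεpos.ne', one_smul] at h2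
  have hFtop : Submodule.span ℝ F = ⊤ := by
    by_contra hne
    obtain ⟨f, hf0, hf⟩ := Submodule.exists_le_ker_of_lt_top _ (lt_top_iff_ne_top.2 hne)
    obtain ⟨W, hW⟩ := riesz f
    have h1 : X + W = X := by
      apply hX.2.2
      intro Y α hY hα
      have hYN : Y ∈ N := by
        intro A hA
        rw [hα]
        exact hY A hA
      have h2 : f Y = 0 := hf (hNspan Y hYN)
      rw [hW, pair_comm] at h2
      rw [pair_add_left, h2, hα, add_zero]
    have h2 : W = 0 := by simpa using h1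
    apply hf0
    apply LinearMap.ext
    intro M
    rw [hW, h2, pair_comm, hpair0]
    rfl
  refine ⟨X, 1, hX0, ?_, ?_, ⟨z0, hz0⟩, ?_, ?_⟩
  · intro A hA
    rw [pair_comm]
    exact hA.2 X hXC
  · ext Z
    simp only [hF, Set.mem_ofPred_eq, pair_comm X Z]
  · intro Z hZ
    rw [frontier]
    refine ⟨subset_closure hZ.1, fun hint => ?_⟩
    have h1 : Tendsto (fun t : ℝ => t • Z) (𝓝[>] 1) (𝓝 Z) := by
      have h2 : Continuous fun t : ℝ => t • Z := continuous_id.smul continuous_const
      have h3 := h2.tendsto 1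
      rw [one_smul] at h3
      exact h3.mono_left nhdsWithin_le_nhds
    have h2 : ∀ᶠ t in 𝓝[>] (1 : ℝ), t • Z ∈ antiBlocker C :=
      (h1.eventually (isOpen_interior.mem_nhds hint)).mono fun t ht => interior_subset ht
    obtain ⟨t, ht, ht1⟩ := (h2.and self_mem_nhdsWithin).exists
    have h3 := ht.2 X hXC
    rw [pair_smul_right, hZ.2, mul_one] at h3
    exact absurd h3 (not_le.2 ht1)
  · rw [direction_affineSpan]
    set V := vectorSpan ℝ F with hV
    let g : Herm n →ₗ[ℝ] ℝ := pairL X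
    have hg : ∀ M, g M = pair X M := fun M => rfl
    have hVker : V ≤ LinearMap.ker g := by
      rw [hV, vectorSpan_def, Submodule.span_le]
      rintro _ ⟨a, ha, b, hb, rfl⟩
      simp only [vsub_eq_sub, SetLike.mem_coe, LinearMap.mem_ker, hg]
      rw [pair_comm, pair_sub_left, pair_comm a, pair_comm b, ha.2, hb.2, sub_self]
    have hker : LinearMap.ker g < ⊤ := by
      rw [lt_top_iff_ne_top]
      intro h
      have : z0 ∈ LinearMap.ker g := by rw [h]; trivial
      rw [LinearMap.mem_ker, hg, hz0.2] at this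
      exact one_ne_zero this
    have h1 : Module.finrank ℝ V < n ^ 2 := by
      rw [← finrank_herm (n := n)]
      exact Submodule.finrank_lt (lt_of_le_of_lt hVker hker).ne
    have h2 : (⊤ : Submodule ℝ (Herm n)) ≤ V ⊔ Submodule.span ℝ {z0} := by
      rw [← hFtop, Submodule.span_le]
      intro z hz
      have h3 : z = (z - z0) + z0 := by abel
      rw [h3]
      refine Submodule.add_mem_sup ?_ (Submodule.mem_span_singleton_self z0)
      rw [hV]
      exact vsub_mem_vectorSpan ℝ hz hz0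
    have h3 : n ^ 2 ≤ Module.finrank ℝ V + 1 := by
      calc n ^ 2 = Module.finrank ℝ (⊤ : Submodule ℝ (Herm n)) := by
            rw [finrank_top, finrank_herm]
        _ ≤ Module.finrank ℝ (V ⊔ Submodule.span ℝ {z0} : Submodule ℝ (Herm n)) :=
            Submodule.finrank_mono h2
        _ ≤ Module.finrank ℝ V + Module.finrank ℝ (Submodule.span ℝ {z0}) :=
            Submodule.finrank_add_le_finrank_add_finrank _ _
        _ ≤ Module.finrank ℝ V + 1 := by
            gcongr
            refine (finrank_span_singleton (K := ℝ) ?_).le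
            intro h0
            have h4 := hz0.2
            rw [h0, pair_comm, hpair0] at h4
            exact zero_ne_one h4
    omega

end Pool.Agent.Results.MP_59e64e_co.VertexFacet
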